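import Pool.Agent.H33.G.R_seed8.W38.PRe

/-! Weighted counting of integers whose Collatz orbit stays above `y` (adaptation of the argument of
`Pool.Agent.W38.PR` for primes). -/

set_option autoImplicit false

namespace Pool.Agent.Y819.MW

open Finset Filter Topology Pool.Agent.H499R2.CO Pool.Agent.W38.PR
open Pool.Agent.H319R2 (beta beta_lt)
open Classical

/-- the elements of a union of classes modulo `2 ^ k` -/
theorem w_classes {k N : ℕ} (w : ℕ → ℝ) (hw : ∀ n, 0 ≤ w n) {M : ℝ}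
    (hA : ∀ a, a < 2 ^ k → ∑ n ∈ Icc 1 N with n % 2 ^ k = a, w n ≤ M) (P : ℤ → Prop)
    (hP : ∀ x m : ℤ, P (x + m * 2 ^ k) ↔ P x) :
    ∑ n ∈ Icc 1 N with P ((n : ℕ) : ℤ), w n ≤ M * #{a ∈ range (2 ^ k) | P ((a : ℕ) : ℤ)} := by
  set A := ({a ∈ range (2 ^ k) | P ((a : ℕ) : ℤ)} : Finset ℕ) with hAdef
  have hsub : ({n ∈ Icc 1 N | P ((n : ℕ) : ℤ)} : Finset ℕ) ⊆
      A.biUnion (fun a => ({n ∈ Icc 1 N | n % 2 ^ k = a} : Finset ℕ)) := by
    intro p hp
    rw [mem_filter] at hp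
    rw [mem_biUnion]
    refine ⟨p % 2 ^ k, ?_, ?_⟩
    · rw [hAdef, mem_filter, mem_range]
      refine ⟨Nat.mod_lt _ (by positivity), ?_⟩
      have h1 := hP ((p % 2 ^ k : ℕ) : ℤ) ((p / 2 ^ k : ℕ) : ℤ)
      rw [← h1]
      have h2 : ((p % 2 ^ k : ℕ) : ℤ) + ((p / 2 ^ k : ℕ) : ℤ) * 2 ^ k = ((p : ℕ) : ℤ) := by
        have := Nat.mod_add_div p (2 ^ k)
        have h3 : ((p % 2 ^ k + 2 ^ k * (p / 2 ^ k) : ℕ) : ℤ) = p := by rw [this]
        push_cast at h3 ⊢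
        linarith
      rw [h2]
      exact hp.2
    · rw [mem_filter]
      exact ⟨hp.1, rfl⟩
  have hdisj : Set.PairwiseDisjoint (A : Set ℕ)
      (fun a => ({n ∈ Icc 1 N | n % 2 ^ k = a} : Finset ℕ)) := by
    intro a _ b _ hab
    rw [Function.onFun, disjoint_left]
    intro n hn hn'
    rw [mem_filter] at hn hn'
    exact hab (hn.2.symm.trans hn'.2)
  calc ∑ n ∈ Icc 1 N with P ((n : ℕ) : ℤ), w n
      ≤ ∑ n ∈ A.biUnion (fun a => ({n ∈ Icc 1 N | n % 2 ^ k = a} : Finset ℕ)), w n :=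
        sum_le_sum_of_subset_of_nonneg hsub fun n _ _ => hw n
    _ = ∑ a ∈ A, ∑ n ∈ Icc 1 N with n % 2 ^ k = a, w n := sum_biUnion hdisj
    _ ≤ ∑ a ∈ A, M := by
        apply sum_le_sum
        intro a ha
        exact hA a (mem_range.1 (mem_of_mem_filter a ha))
    _ = M * #A := by rw [sum_const, nsmul_eq_mul]; ring

/-- elements for which the pair with the shift `h` does not coalesce -/
theorem w_surv {k N : ℕ} (w : ℕ → ℝ) (hw : ∀ n, 0 ≤ w n) {M : ℝ}
    (hA : ∀ a, a < 2 ^ k → ∑ n ∈ Icc 1 N with n % 2 ^ k = a, w n ≤ M / 2 ^ k) (s : ℕ × ℤ) :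
    ∑ n ∈ Icc 1 N with surv 1 k s (n : ℕ), w n ≤ M * q step (0, 0) k s := by
  have h1 := w_classes w hw hA (surv 1 k s) (fun x m => surv_periodic (by norm_num) k s x m)
  have h2 := count_surv (d := 1) (by norm_num) k s
  have h3 : (#{a ∈ range (2 ^ k) | surv 1 k s ((a : ℕ) : ℤ)} : ℝ) = 2 ^ k * q step (0, 0) k s := by
    rw [← h2, card_filter]
    push_cast
    rfl
  rw [h3] at h1
  refine h1.trans (le_of_eq ?_)
  have : (0 : ℝ) < 2 ^ k := by positivity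
  field_simp

/-- elements with many non-coalescing shifts -/
theorem w_bad {k H N : ℕ} (w : ℕ → ℝ) (hw : ∀ n, 0 ≤ w n) {M Q : ℝ} (hM : 0 ≤ M)
    (hA : ∀ a, a < 2 ^ k → ∑ n ∈ Icc 1 N with n % 2 ^ k = a, w n ≤ M / 2 ^ k) (hH : 1 ≤ H)
    (hQ : ∀ h ∈ Icc 1 H, q step (0, 0) k (0, ((h : ℕ) : ℤ)) ≤ Q) :
    ∑ n ∈ Icc 1 N with (H : ℝ) / 2 < #{h ∈ Icc 1 H | surv 1 k (0, ((h : ℕ) : ℤ)) (n : ℕ)}, w n ≤
      2 * M * Q := by
  have hHr : (0 : ℝ) < H := by exact_mod_cast hH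
  set B := ({n ∈ Icc 1 N | (H : ℝ) / 2 <
    #{h ∈ Icc 1 H | surv 1 k (0, ((h : ℕ) : ℤ)) (n : ℕ)}} : Finset ℕ) with hB
  have h1 : (∑ n ∈ B, w n) * (H / 2) ≤
      ∑ n ∈ Icc 1 N, w n * (#{h ∈ Icc 1 H | surv 1 k (0, ((h : ℕ) : ℤ)) (n : ℕ)} : ℝ) := by
    calc (∑ n ∈ B, w n) * (H / 2) = ∑ n ∈ B, w n * ((H : ℝ) / 2) := by rw [sum_mul]
      _ ≤ ∑ n ∈ B, w n * (#{h ∈ Icc 1 H | surv 1 k (0, ((h : ℕ) : ℤ)) (n : ℕ)} : ℝ) := by
          apply sum_le_sum
          intro p hp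
          rw [hB, mem_filter] at hp
          exact mul_le_mul_of_nonneg_left hp.2.le (hw p)
      _ ≤ _ := sum_le_sum_of_subset_of_nonneg (filter_subset _ _)
          (fun n _ _ => mul_nonneg (hw n) (by positivity))
  have h2 : ∑ n ∈ Icc 1 N, w n * (#{h ∈ Icc 1 H | surv 1 k (0, ((h : ℕ) : ℤ)) (n : ℕ)} : ℝ) =
      ∑ h ∈ Icc 1 H, ∑ n ∈ Icc 1 N with surv 1 k (0, ((h : ℕ) : ℤ)) (n : ℕ), w n := by
    have e1 : ∀ n ∈ Icc 1 N, w n * (#{h ∈ Icc 1 H | surv 1 k (0, ((h : ℕ) : ℤ)) (n : ℕ)} : ℝ) =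
        ∑ h ∈ Icc 1 H, if surv 1 k (0, ((h : ℕ) : ℤ)) (n : ℕ) then w n else 0 := by
      intro n _
      rw [← sum_filter, sum_const, nsmul_eq_mul, mul_comm]
    rw [sum_congr rfl e1, sum_comm]
    apply sum_congr rfl
    intro h _
    rw [← sum_filter]
  have h3 : ∑ h ∈ Icc 1 H, ∑ n ∈ Icc 1 N with surv 1 k (0, ((h : ℕ) : ℤ)) (n : ℕ), w n ≤
      ∑ h ∈ Icc 1 H, M * Q := by
    apply sum_le_sum
    intro h hh
    refine (w_surv w hw hA (0, ((h : ℕ) : ℤ))).trans ?_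
    exact mul_le_mul_of_nonneg_left (hQ h hh) hM
  rw [sum_const, nsmul_eq_mul, Nat.card_Icc, Nat.add_sub_cancel] at h3
  have h4 : (∑ n ∈ B, w n) * (H / 2) ≤ H * (M * Q) := by linarith
  have h5 : (H : ℝ) * (M * Q) = (2 * M * Q) * (H / 2) := by ring
  rw [h5] at h4
  exact le_of_mul_le_mul_right h4 (by positivity)

/-- blocks: if each element of `G` is followed by many elements of `E`, then `G` is small -/
theorem w_block {H N : ℕ} (hH : 2 ≤ H) (w : ℕ → ℝ) {M : ℝ} (hM : 0 ≤ M) (G : Finset ℕ)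
    (E : ℕ → Prop) (hG : ∀ p ∈ G, p ≤ N ∧ (H : ℝ) / 2 ≤ #{h ∈ Icc 1 H | E (p + h)})
    (hB : ∀ j, ∑ n ∈ G with n / H = j, w n ≤ M * H) :
    ∑ n ∈ G, w n ≤ 4 * M * #{n ∈ Icc 1 (N + 2 * H) | E n} := by
  have hHr : (0 : ℝ) < H := by
    have : 0 < H := by omega
    exact_mod_cast this
  set J := G.image (fun p => p / H) with hJ
  set T := ({n ∈ Icc 1 (N + 2 * H) | E n} : Finset ℕ) with hT
  -- windows
  set W1 : ℕ → Finset ℕ := fun j => T.filter (fun n => (n - 1) / H = j) with hW1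
  set W2 : ℕ → Finset ℕ := fun j => T.filter (fun n => (n - 1) / H = j + 1) with hW2
  have hdis1 : ∑ j ∈ J, #(W1 j) ≤ #T := by
    have : ∑ j ∈ J, #(W1 j) = #(J.biUnion W1) := by
      rw [card_biUnion]
      intro a _ b _ hab
      rw [Function.onFun, disjoint_left]
      intro n hn hn'
      rw [hW1] at hn hn'
      simp only [mem_filter] at hn hn'
      exact hab (hn.2.symm.trans hn'.2)
    rw [this]
    apply card_le_card
    intro n hn
    rw [mem_biUnion] at hn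
    obtain ⟨j, _, hj⟩ := hn
    exact mem_of_mem_filter n hj
  have hdis2 : ∑ j ∈ J, #(W2 j) ≤ #T := by
    have : ∑ j ∈ J, #(W2 j) = #(J.biUnion W2) := by
      rw [card_biUnion]
      intro a _ b _ hab
      rw [Function.onFun, disjoint_left]
      intro n hn hn'
      rw [hW2] at hn hn'
      simp only [mem_filter] at hn hn'
      have := hn.2.symm.trans hn'.2
      omega
    rw [this]
    apply card_le_card
    intro n hn
    rw [mem_biUnion] at hn
    obtain ⟨j, _, hj⟩ := hn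
    exact mem_of_mem_filter n hj
  have hwin : ∀ j ∈ J, (H : ℝ) / 2 ≤ (#(W1 j) : ℝ) + #(W2 j) := by
    intro j hj
    rw [hJ, mem_image] at hj
    obtain ⟨p, hp, rfl⟩ := hj
    obtain ⟨hpN, hp2⟩ := hG p hp
    refine hp2.trans ?_
    have h1 : #{h ∈ Icc 1 H | E (p + h)} ≤ #(W1 (p / H) ∪ W2 (p / H)) := by
      apply card_le_card_of_injOn (fun h => p + h)
      · intro h hh
        rw [mem_coe, mem_filter, mem_Icc] at hh
        rw [mem_coe, mem_union]
        beta_reduce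
        have hmem : p + h ∈ T := by
          rw [hT, mem_filter, mem_Icc]
          exact ⟨⟨by omega, by omega⟩, hh.2⟩
        have h2 : p + h - 1 = p + (h - 1) := by omega
        have h3 : (p + h - 1) / H = p / H ∨ (p + h - 1) / H = p / H + 1 := by
          rw [h2]
          have h4 := Nat.div_add_mod p H
          have h5 := Nat.mod_lt p (show H > 0 by omega)
          have h6 : p + (h - 1) = H * (p / H) + (p % H + (h - 1)) := by omega
          rw [h6, Nat.mul_add_div (by omega)]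
          have h7 : (p % H + (h - 1)) / H ≤ 1 := by
            apply Nat.le_of_lt_succ
            rw [Nat.div_lt_iff_lt_mul (by omega)]
            omega
          rcases Nat.le_one_iff_eq_zero_or_eq_one.1 h7 with h8 | h8
          · left; rw [h8, add_zero]
          · right; rw [h8]
        rcases h3 with h3 | h3
        · left; rw [hW1]; simp only [mem_filter]; exact ⟨hmem, h3⟩
        · right; rw [hW2]; simp only [mem_filter]; exact ⟨hmem, h3⟩
      · intro a _ b _ hab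
        beta_reduce at hab
        omega
    have h2 := h1.trans (card_union_le _ _)
    exact_mod_cast h2
  have hJcard : (#J : ℝ) * (H / 2) ≤ 2 * #T := by
    have h1 : (#J : ℝ) * (H / 2) = ∑ j ∈ J, ((H : ℝ) / 2) := by rw [sum_const, nsmul_eq_mul]
    rw [h1]
    have h2 : ∑ j ∈ J, ((H : ℝ) / 2) ≤ ∑ j ∈ J, ((#(W1 j) : ℝ) + #(W2 j)) := sum_le_sum hwin
    rw [sum_add_distrib] at h2
    have h3 : ∑ j ∈ J, (#(W1 j) : ℝ) ≤ #T := by exact_mod_cast hdis1
    have h4 : ∑ j ∈ J, (#(W2 j) : ℝ) ≤ #T := by exact_mod_cast hdis2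
    linarith
  have hGJ : ∑ n ∈ G, w n ≤ #J * (M * H) := by
    have h1 : ∑ n ∈ G, w n = ∑ j ∈ J, ∑ n ∈ G with n / H = j, w n := by
      rw [hJ]
      exact (sum_fiberwise_of_maps_to (fun n hn => mem_image_of_mem _ hn) _).symm
    rw [h1]
    calc ∑ j ∈ J, ∑ n ∈ G with n / H = j, w n ≤ ∑ j ∈ J, M * H := sum_le_sum fun j _ => hB j
      _ = _ := by rw [sum_const, nsmul_eq_mul]
  refine hGJ.trans ?_
  calc (#J : ℝ) * (M * H) = (#J * (H / 2)) * (2 * M) := by ring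
    _ ≤ 2 * #T * (2 * M) := mul_le_mul_of_nonneg_right hJcard (by positivity)
    _ = 4 * M * #T := by ring

end Pool.Agent.Y819.MW
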